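import Pool.Agent.LibSAD21.Main
import Pool.Agent.LibSAD21.Imp

/-!
# Compact continuous images of `C_p(K)`: the statement of Q1 is not a theorem of ZFC

`sadSentence B` is the truth value, in the Boolean-valued universe `V^B`, of the statement
`HasFamily` below.
-/

set_option autoImplicit false

namespace Pool.Agent.Results.MP_6eabd1_gt.ConsistentFailure

open Pool.Agent.LibSAD21

/-- There are an uncountable set `I` and functions from `I` to `ℕ`, at least one for each subset
`A` of `I`, such that functions belonging to different subsets of `I` agree at only finitely many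
points of `I`. -/
def HasFamily : Prop :=
  ∃ (I : Type) (F : Set I → (I → ℕ) → Prop), Uncountable I ∧ (∀ A, ∃ k, F A k) ∧
    ∀ (A A' : Set I) (k l : I → ℕ), A ≠ A' → F A k → F A' l → {i | k i = l i}.Finite

/-- The statement of Q1 (the text is that of the frozen statement): for every compact Hausdorff
space `K` of cardinality at most the continuum, every compact Hausdorff space that is a continuous
image of `C_p(K)` is metrizable. -/
def CompactImagesMetrizable : Prop :=
  ∀ (K : Type) [TopologicalSpace K] [CompactSpace K] [T2Space K],
    Cardinal.mk K ≤ Cardinal.continuum →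
    ∀ (Y : Type) [TopologicalSpace Y] [CompactSpace Y] [T2Space Y]
      (f : {g : K → ℝ // Continuous g} → Y),
      Continuous f → Function.Surjective f → TopologicalSpace.MetrizableSpace Y

/-- The statement `HasFamily` is true in some Boolean-valued universe, so it is consistent with
ZFC; and it implies the negation of Q1. -/
theorem result :
    (∃ (B : Type) (_ : CompleteBooleanAlgebra B) (_ : Nontrivial B), sadSentence B = ⊤) ∧
    (HasFamily → ¬ CompactImagesMetrizable) := by
  refine ⟨main, ?_⟩
  rintro ⟨I, F, hI, hF, hfin⟩ hQ
  choose k hk using hF
  obtain ⟨K, _, _, _, hK, Y, _, _, _, f, hf1, hf2, hf3⟩ := Imp.imp_main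
    ⟨I, k, hI, fun A B hAB => hfin A B _ _ hAB (hk A) (hk B)⟩
  exact hf3 (hQ K hK Y f hf1 hf2)

end Pool.Agent.Results.MP_6eabd1_gt.ConsistentFailure
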