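import Pool.Agent.CpImages.Main

/-!
# Compact continuous images of `C_p(K)` for subspaces of products of Rosenthal compacta
-/

set_option autoImplicit false

namespace Pool.Agent.Results.MP_6eabd1_gt.ProductRosenthal

open Topology Filter Cardinal Pool.Agent.CpImages

/-- A Rosenthal compact space: a compact space which embeds in the space of functions of the first
Baire class on some Polish space, with the topology of pointwise convergence. -/
def IsRosenthalCompact (R : Type) [TopologicalSpace R] : Prop :=
  CompactSpace R ∧ ∃ (P : Type) (_ : TopologicalSpace P) (_ : PolishSpace P) (e : R → P → ℝ),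
    IsEmbedding e ∧ ∀ r, IsBaireOne (e r)

/-- The unit interval is a Rosenthal compact space, so that every compact space of weight at most
`ℵ₁` satisfies the hypothesis of the theorem below. -/
theorem isRosenthalCompact_unitInterval : IsRosenthalCompact unitInterval := by
  refine ⟨inferInstance, PUnit, inferInstance, inferInstance, fun r _ => r, ?_, ?_⟩
  · have hc : Continuous fun (r : unitInterval) (_ : PUnit) => (r : ℝ) :=
      continuous_pi fun _ => continuous_subtype_val
    refine (hc.isClosedEmbedding ?_).isEmbedding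
    intro r s h
    exact Subtype.ext (congrFun h PUnit.unit)
  · intro r
    exact ⟨fun _ _ => r, fun _ => continuous_const, fun _ => tendsto_const_nhds⟩

section

variable {K : Type} [TopologicalSpace K] {ι : Type} {P : ι → Type}

/-- the functions `k ↦ Ψ i k y` with `i ∈ S` -/
def atoms (a : ∀ i, P i → C(K, ℝ)) (S : Set ι) : Set C(K, ℝ) := {g | ∃ i ∈ S, ∃ y, g = a i y}

theorem atoms_mono (a : ∀ i, P i → C(K, ℝ)) {S T : Set ι} (h : S ⊆ T) :
    atoms a S ⊆ atoms a T := by
  rintro g ⟨i, hi, y, rfl⟩
  exact ⟨i, h hi, y, rfl⟩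

theorem rep_atoms [∀ i, TopologicalSpace (P i)] [∀ i, PolishSpace (P i)]
    (a : ∀ i, P i → C(K, ℝ)) (ha : ∀ i k, IsBaireOne fun y => a i y k) (S : Set ι)
    (hS : S.Countable) : Rep (atoms a S) := by
  have : Countable S := hS
  refine (Rep.iUnion (ι := S) (R := fun i => Set.range (a i)) fun i =>
    ⟨P i, inferInstance, inferInstance, a i, fun k => Frag.of_baireOne (ha i k), le_rfl⟩).mono ?_
  rintro g ⟨i, hi, y, rfl⟩
  exact Set.mem_iUnion.mpr ⟨⟨i, hi⟩, y, rfl⟩

theorem adjoin_atoms (a : ∀ i, P i → C(K, ℝ)) (e : ι → Om) (x : C(K, ℝ))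
    (hx : x ∈ Algebra.adjoin ℝ (atoms a Set.univ)) :
    ∃ b : Om, x ∈ Algebra.adjoin ℝ (atoms a {i | e i < b}) := by
  have hmono : ∀ {b c : Om}, b ≤ c → Algebra.adjoin ℝ (atoms a {i | e i < b}) ≤
      Algebra.adjoin ℝ (atoms a {i | e i < c}) := by
    intro b c hbc
    exact Algebra.adjoin_mono (atoms_mono a fun i hi => lt_of_lt_of_le hi hbc)
  induction hx using Algebra.adjoin_induction with
  | mem x hx =>
    obtain ⟨i, -, y, rfl⟩ := hx
    obtain ⟨b, hb⟩ := exists_gt_Om fun _ => e i
    exact ⟨b, Algebra.subset_adjoin ⟨i, hb 0, y, rfl⟩⟩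
  | algebraMap r =>
    have : Nonempty Om := by
      by_contra h
      rw [not_nonempty_iff] at h
      exact not_countable_Om inferInstance
    exact ⟨Classical.arbitrary Om, Subalgebra.algebraMap_mem _ r⟩
  | add x y _ _ hx hy =>
    obtain ⟨b, hb⟩ := hx
    obtain ⟨c, hc⟩ := hy
    exact ⟨max b c, add_mem (hmono (le_max_left _ _) hb) (hmono (le_max_right _ _) hc)⟩
  | mul x y _ _ hx hy =>
    obtain ⟨b, hb⟩ := hx
    obtain ⟨c, hc⟩ := hy
    exact ⟨max b c, mul_mem (hmono (le_max_left _ _) hb) (hmono (le_max_right _ _) hc)⟩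

end

/-- If a compact space `K` embeds in a product of at most `ℵ₁` Rosenthal compact spaces, then every
compact Hausdorff continuous image of `C_p(K)` is metrizable. -/
theorem result (K : Type) [TopologicalSpace K] [CompactSpace K] [T2Space K]
    (ι : Type) (hι : #ι ≤ ℵ₁) (R : ι → Type) [∀ i, TopologicalSpace (R i)]
    (hR : ∀ i, IsRosenthalCompact (R i)) (j : K → ∀ i, R i) (hj : IsEmbedding j)
    (Y : Type) [TopologicalSpace Y] [CompactSpace Y] [T2Space Y]
    (f : {g : K → ℝ // Continuous g} → Y) (hf : Continuous f) (hs : Function.Surjective f) :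
    TopologicalSpace.MetrizableSpace Y := by
  choose hRc P tP pP e he heB using hR
  -- the atoms
  let a : ∀ i, P i → C(K, ℝ) := fun i y => ⟨fun k => e i (j k i) y, by
    exact ((continuous_apply y).comp (he i).continuous).comp
      ((continuous_apply i).comp hj.continuous)⟩
  obtain ⟨e'⟩ : Nonempty (ι ↪ Om) := by
    rw [← Cardinal.le_def, mk_Om]
    exact hι
  have hcount : ∀ b : Om, {i | e' i < b}.Countable := fun b =>
    (countable_Iio_Om b).preimage_of_injOn e'.injective.injOn
  refine metrizable_of_rep (fun b => closure (Algebra.adjoin ℝ (atoms a {i | e' i < b}) :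
    Set C(K, ℝ))) (fun b => ?_) ?_ f hf hs
  · exact ((rep_atoms a (fun i k => heB i (j k i)) _ (hcount b)).adjoin).closure
  · intro g
    have hsep : (Algebra.adjoin ℝ (atoms a Set.univ)).SeparatesPoints := by
      intro k l hkl
      have h1 : j k ≠ j l := fun h => hkl (hj.injective h)
      obtain ⟨i, hi⟩ := Function.ne_iff.mp h1
      have h2 : e i (j k i) ≠ e i (j l i) := fun h => hi ((he i).injective h)
      obtain ⟨y, hy⟩ := Function.ne_iff.mp h2
      exact ⟨a i y, ⟨a i y, Algebra.subset_adjoin ⟨i, Set.mem_univ i, y, rfl⟩, rfl⟩, hy⟩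
    have htop := ContinuousMap.subalgebra_topologicalClosure_eq_top_of_separatesPoints _ hsep
    have hg : g ∈ closure (Algebra.adjoin ℝ (atoms a Set.univ) : Set C(K, ℝ)) := by
      have : g ∈ (Algebra.adjoin ℝ (atoms a Set.univ)).topologicalClosure := by
        rw [htop]; exact Algebra.mem_top
      exact this
    obtain ⟨x, hx, hxg⟩ := mem_closure_iff_seq_limit.mp hg
    have hb : ∀ n, ∃ b : Om, x n ∈ Algebra.adjoin ℝ (atoms a {i | e' i < b}) := fun n =>
      adjoin_atoms a e' (x n) (hx n)
    choose b hb using hb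
    obtain ⟨c, hc⟩ := exists_gt_Om b
    refine ⟨c, mem_closure_of_tendsto hxg (Filter.Eventually.of_forall fun n => ?_)⟩
    exact Algebra.adjoin_mono (atoms_mono a fun i hi => lt_trans hi (hc n)) (hb n)

end Pool.Agent.Results.MP_6eabd1_gt.ProductRosenthal
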